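import Pool.Agent.Lib.MP_4139f5_gt.K3
import Pool.Agent.Lib.MP_4139f5_gt.K4

/-!
Tight topological immersions of compact connected surfaces with nonempty boundary: for `N ≥ 4` the
convex hull of the image is a polytope. (`M` is any compact connected Hausdorff space in which every
point has an open neighbourhood homeomorphic to an open subset of the closed half-plane.)

Tightness is used in the literal form (closed half-spaces, singular homology modulo 2) or in the
form for open half-spaces, which follows from the literal one and from tightness in Čech homology.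
-/

open CategoryTheory AlgebraicTopology

namespace Pool.Agent.Results.MP_4139f5_gt.TightHull

/-- Every point has an open neighbourhood which is homeomorphic to an open subset of the closed
half-plane (with `T2Space`: a surface, possibly with boundary). -/
def IsSurface (M : Type) [TopologicalSpace M] : Prop :=
  ∀ x : M, ∃ φ : OpenPartialHomeomorph M (EuclideanHalfSpace 2), x ∈ φ.source

/-- The boundary: the points which some chart maps to the boundary line of the half-plane. -/
def boundary (M : Type) [TopologicalSpace M] : Set M :=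
  {x | ∃ φ : OpenPartialHomeomorph M (EuclideanHalfSpace 2), x ∈ φ.source ∧ (φ x).1 0 = 0}

/-- The map `H_k(A; ℤ/2) → H_k(M; ℤ/2)` (singular homology) induced by the inclusion. -/
noncomputable def inclH {M : Type} [TopologicalSpace M] (A : Set M) (k : ℕ) :=
  ((singularHomologyFunctor (ModuleCat.{0} (ZMod 2)) k).obj (ModuleCat.of (ZMod 2) (ZMod 2))).map
    (TopCat.ofHom ⟨Subtype.val, continuous_subtype_val⟩ : TopCat.of A ⟶ TopCat.of M)

variable {M : Type} [TopologicalSpace M] {E : Type*} [NormedAddCommGroup E] [InnerProductSpace ℝ E]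

/-- Tightness: for every closed half-space `h` the maps `H_k(f⁻¹(h)) → H_k(M)`, `k = 0, 1`, are
injective. -/
def Tight (f : M → E) : Prop :=
  ∀ (l : E →L[ℝ] ℝ), l ≠ 0 → ∀ c : ℝ, ∀ k ≤ 1, Function.Injective (inclH (f ⁻¹' {y | c ≤ l y}) k)

/-- The same for the open half-spaces. -/
def OpenTight (f : M → E) : Prop :=
  ∀ (l : E →L[ℝ] ℝ), l ≠ 0 → ∀ c : ℝ, ∀ k ≤ 1, Function.Injective (inclH (f ⁻¹' {y | c < l y}) k)

open Pool.Agent.Kuiper in
theorem main_metric {M : Type} [MetricSpace M] [CompactSpace M]
    [ConnectedSpace M] [Surf M] [PathConnectedSpace M] (hbd : (bdy M).Nonempty)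
    {E : Type*} [NormedAddCommGroup E] [InnerProductSpace ℝ E] [FiniteDimensional ℝ E]
    (hN : 4 ≤ Module.finrank ℝ E)
    {f : M → E} (hf : Continuous f)
    (hinj : ∀ x : M, ∃ U ∈ nhds x, Set.InjOn f U)
    (hspan : affineSpan ℝ (Set.range f) = ⊤)
    (ht : Tight f ∨ OpenTight f) :
    ∃ S : Set E, S.Finite ∧ convexHull ℝ (Set.range f) = convexHull ℝ S := by
  have hne : (Set.range f).Nontrivial := by
    by_contra hcon
    rw [Set.not_nontrivial_iff] at hcon
    obtain ⟨m⟩ := (inferInstance : Nonempty M)
    have h1 : Set.range f = {f m} := by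
      apply Set.Subset.antisymm
      · intro y hy
        exact hcon hy ⟨m, rfl⟩
      · rintro _ rfl
        exact ⟨m, rfl⟩
    rw [h1] at hspan
    have : Nontrivial E := Module.nontrivial_of_finrank_pos (R := ℝ) (by omega)
    obtain ⟨y, hy⟩ := exists_ne (f m)
    have h2 : y ∈ affineSpan ℝ ({f m} : Set E) := by
      rw [hspan]
      exact AffineSubspace.mem_top ℝ _ y
    rw [AffineSubspace.mem_affineSpan_singleton] at h2
    exact hy h2
  have hzero : ∀ (l : E →L[ℝ] ℝ) (c : ℝ) (a b : M), l = 0 → c < l (f a) →
      JoinedIn {m | c < l (f m)} a b := by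
    intro l c a b hl ha
    have huniv : {m | c < l (f m)} = (Set.univ : Set M) := by
      ext m
      rw [hl] at ha ⊢
      simpa using ha
    rw [huniv]
    exact joinedIn_univ.mpr (PathConnectedSpace.joined a b)
  have htight : Pool.Agent.Kuiper.Tight f := by
    rcases ht with ht | ht
    · have hmono : ∀ (l : E →L[ℝ] ℝ), l ≠ 0 → ∀ c : ℝ, ∀ k : ℕ, k ≤ 1 →
          Mono (inclH (f ⁻¹' {y | c ≤ l y}) k) := fun l hl c k hk =>
        (ModuleCat.mono_iff_injective _).2 (ht l hl c k hk)
      refine ⟨hf, hinj, ?_, hspan, ?_⟩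
      · intro l c a b ha hb
        by_cases hl : l = 0
        · exact hzero l c a b hl ha
        · have h1 : min (l (f a)) (l (f b)) ≤ l (f a) := min_le_left _ _
          have h2 : min (l (f a)) (l (f b)) ≤ l (f b) := min_le_right _ _
          refine JoinedIn.mono (joined_of_mono (f ⁻¹' {y | min (l (f a)) (l (f b)) ≤ l y})
            (hmono l hl _ 0 (by norm_num)) h1 h2) ?_
          intro m hm
          exact lt_of_lt_of_le (lt_min ha hb) hm
      · intro q hq
        exact exposed_of_mono hbd hf hinj hne hmono hq
    · have hmono : ∀ (l : E →L[ℝ] ℝ), l ≠ 0 → ∀ c : ℝ, ∀ k : ℕ, k ≤ 1 →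
          Mono (inclH (f ⁻¹' {y | c < l y}) k) := fun l hl c k hk =>
        (ModuleCat.mono_iff_injective _).2 (ht l hl c k hk)
      refine ⟨hf, hinj, ?_, hspan, ?_⟩
      · intro l c a b ha hb
        by_cases hl : l = 0
        · exact hzero l c a b hl ha
        · exact joined_of_mono (f ⁻¹' {y | c < l y}) (hmono l hl c 0 (by norm_num)) ha hb
      · intro q hq
        exact exposed_of_open hbd hf hinj hne hmono hq
  obtain ⟨S, hS⟩ := htight.polytope hN
  exact ⟨↑S, S.finite_toSet, hS⟩

/-- a chart around every point -/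
@[instance_reducible] noncomputable def charted (h : IsSurface M) : ChartedSpace (EuclideanHalfSpace 2) M where
  atlas := Set.univ
  chartAt x := (h x).choose
  mem_chart_source x := (h x).choose_spec
  chart_mem_atlas _ := trivial

theorem result (M : Type) [TopologicalSpace M] [T2Space M] [CompactSpace M] [ConnectedSpace M]
    (hM : IsSurface M) (hb : (boundary M).Nonempty)
    (E : Type*) [NormedAddCommGroup E] [InnerProductSpace ℝ E] [FiniteDimensional ℝ E]
    (hE : 4 ≤ Module.finrank ℝ E)
    -- a substantial topological immersion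
    (f : M → E) (hf : Continuous f) (hinj : ∀ x : M, ∃ U ∈ nhds x, Set.InjOn f U)
    (hspan : affineSpan ℝ (Set.range f) = ⊤)
    -- tight
    (ht : Tight f ∨ OpenTight f) :
    ∃ S : Set E, S.Finite ∧ convexHull ℝ (Set.range f) = convexHull ℝ S := by
  let _ : ChartedSpace (EuclideanHalfSpace 2) M := charted hM
  have : Pool.Agent.Kuiper.Surf M := Pool.Agent.Kuiper.surf_of_charted
  have : PathConnectedSpace M := Pool.Agent.Kuiper.pathConnected_of_charted
  have : TopologicalSpace.MetrizableSpace M := Pool.Agent.Kuiper.metrizable_of_charted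
  have hb' : (Pool.Agent.Kuiper.bdy M).Nonempty := by
    obtain ⟨x, φ, hx, h0⟩ := hb
    obtain ⟨δ, hδ, -, -⟩ := Pool.Agent.Kuiper.exists_halfDisc_of_chart φ hx h0 Filter.univ_mem
    exact ⟨_, hδ.mem_bdy (x := 0) (by simp)⟩
  let _ : MetricSpace M := TopologicalSpace.metrizableSpaceMetric M
  exact main_metric hb' hE hf hinj hspan ht

end Pool.Agent.Results.MP_4139f5_gt.TightHull
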